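import Pool.Agent.X169.NI.Glob
import Pool.Agent.X169.NM.Conv

/-!
# Isotopies of closed 4-manifolds through nearly linear homeomorphisms, with a fixed error

By theorems of Perron and Quinn every diffeomorphism of `CP²` which acts trivially on homology is
joined to the identity by a path of homeomorphisms; the question is whether it is joined to the
identity by a smooth path of diffeomorphisms. Let `N` be a closed smooth 4-manifold, for instance
`CP²`, smoothly embedded in a Euclidean space, and let `L ≥ 1`. There is an error `ε₀ > 0` such that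
for all closed smooth 4-manifolds `M` two diffeomorphisms `M → N` are smoothly isotopic as soon as
they are joined by a path of homeomorphisms which are within the relative error `ε₀` of injective
linear maps at all small scales, in parametrizations of `M` which are `L`-bi-Lipschitz for a given
function on `M × M`, for instance a distance. The homeomorphisms of the path need not be
differentiable, or Lipschitz, anywhere.
-/

set_option autoImplicit false

open Set Filter Topology Metric Function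
open scoped Manifold ContDiff

namespace Pool.Agent.Results.MP_28b04d_gt.NearlyLinearIsotopy

/-- `ℝ⁴` -/
abbrev R4 : Type := EuclideanSpace ℝ (Fin 4)

/-- `f : ℝ⁴ → ℝᵐ` is nearly linear at the points of norm at most `r₁` and at all scales up to `r₀`,
with error `ε` and condition numbers at most `K`: for all these points `p` and scales `r` there is a
linear map `T` that stretches by factors between some `l > 0` and `K * l` with
`f q = f p + T (q - p)` up to an error at most `ε * l * r` for `|q - p| ≤ r`. -/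
def NearlyLinear {m : ℕ} (f : R4 → EuclideanSpace ℝ (Fin m)) (ε K r₁ r₀ : ℝ) : Prop :=
  ∀ p : R4, ‖p‖ ≤ r₁ → ∀ r : ℝ, 0 < r → r ≤ r₀ →
    ∃ (T : R4 →L[ℝ] EuclideanSpace ℝ (Fin m)) (l : ℝ), 0 < l ∧
    (∀ v, l * ‖v‖ ≤ ‖T v‖ ∧ ‖T v‖ ≤ K * (l * ‖v‖)) ∧
    ∀ q, ‖q - p‖ ≤ r → ‖f q - f p - T (q - p)‖ ≤ ε * l * r

/-- `e : N → ℝᵐ` is a smooth injective immersion: smooth, injective, and at every point some linear
image `A ∘ e` is a local diffeomorphism to `ℝ⁴` -/
def SmoothEmbedding {N : Type} [TopologicalSpace N] [ChartedSpace R4 N] {m : ℕ}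
    (e : N → EuclideanSpace ℝ (Fin m)) : Prop :=
  ContMDiff (𝓡 4) (𝓡 m) ∞ e ∧ Injective e ∧ ∀ y, ∃ A : EuclideanSpace ℝ (Fin m) →L[ℝ] R4,
    IsLocalDiffeomorphAt (𝓡 4) (𝓡 4) ∞ (fun z => A (e z)) y

/-- `A` is bi-Lipschitz on the ball of radius `r`, with constant `L`, for the function `d` -/
def BiLip {M : Type} (L : ℝ) (d : M → M → ℝ) (A : R4 → M) (r : ℝ) : Prop :=
  ∀ p q : R4, ‖p‖ ≤ r → ‖q‖ ≤ r →
    ‖q - p‖ ≤ L * d (A p) (A q) ∧ d (A p) (A q) ≤ L * ‖q - p‖

/-- The maps `F t : M → ℝᵐ`, `0 ≤ t ≤ 1`, are nearly linear at `x` with error `ε`, in a common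
smooth parametrization `A` of a neighbourhood of `x` which is `L`-bi-Lipschitz for `d` -/
def NearlyLinearPathAt {M : Type} [TopologicalSpace M] [ChartedSpace R4 M] {m : ℕ} (L : ℝ)
    (d : M → M → ℝ) (ε : ℝ) (F : ℝ → M → EuclideanSpace ℝ (Fin m)) (x : M) : Prop :=
  ∃ (A : R4 → M) (K r : ℝ), A 0 = x ∧ IsLocalDiffeomorphAt (𝓡 4) (𝓡 4) ∞ A 0 ∧ 0 < r ∧
    BiLip L d A r ∧ ∀ t ∈ Icc (0 : ℝ) 1, NearlyLinear (fun z => F t (A z)) ε K r r

/-- `φ` and `ψ` are smoothly isotopic: they are joined by a path of diffeomorphisms which is smooth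
in both variables -/
def SmoothlyIsotopic {M N : Type} [TopologicalSpace M] [ChartedSpace R4 M] [TopologicalSpace N]
    [ChartedSpace R4 N] (φ ψ : Diffeomorph (𝓡 4) (𝓡 4) M N ∞) : Prop :=
  ∃ H : ℝ → Diffeomorph (𝓡 4) (𝓡 4) M N ∞,
    ContMDiff (𝓘(ℝ, ℝ).prod (𝓡 4)) (𝓡 4) ∞ (fun p : ℝ × M => H p.1 p.2) ∧ H 0 = φ ∧ H 1 = ψ

theorem result (N : Type) [TopologicalSpace N] [CompactSpace N] [ChartedSpace R4 N]
    [IsManifold (𝓡 4) ∞ N] (m : ℕ) (e : N → EuclideanSpace ℝ (Fin m))
    (he : SmoothEmbedding e) (L : ℝ) (hL : 1 ≤ L) :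
    ∃ ε₀ : ℝ, 0 < ε₀ ∧ ∀ (M : Type) [TopologicalSpace M] [ChartedSpace R4 M]
      [IsManifold (𝓡 4) ∞ M] (φ ψ : Diffeomorph (𝓡 4) (𝓡 4) M N ∞) (h : ℝ → M ≃ₜ N)
      (d : M → M → ℝ), (Continuous fun p : ℝ × M => h p.1 p.2) →
      (∀ x, h 0 x = φ x) → (∀ x, h 1 x = ψ x) →
      (∀ x, NearlyLinearPathAt L d ε₀ (fun t x => e (h t x)) x) → SmoothlyIsotopic φ ψ := by
  obtain ⟨he, hi, hd'⟩ := he
  have hd := fun y => Pool.Agent.X169.NM.mfd_inj e he y (hd' y)
  have hemb : IsEmbedding e := (he.continuous.isClosedEmbedding hi).isEmbedding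
  obtain ⟨ε₀, hε₀, hg⟩ := Pool.Agent.X169.NI.glob_fixed (n := 4) (by norm_num) L hL e he hemb hd
  refine ⟨ε₀, hε₀, ?_⟩
  intro M _ _ _ φ ψ h d hc h0 h1 hx
  have e0 : (h 0 : M → N) = φ := funext h0
  have e1 : (h 1 : M → N) = ψ := funext h1
  obtain ⟨G, hGs, hG, hG0, hG1⟩ := hg M h d hc
    (fun x => by rw [e0]; exact φ.isLocalDiffeomorph x)
    (fun x => by rw [e1]; exact ψ.isLocalDiffeomorph x) hx
  choose H hH using fun t => Pool.Agent.X169.NM.diffeo_of_LD (G t) (hG t).1 (hG t).2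
  refine ⟨H, ?_, ?_, ?_⟩
  · simp only [hH]
    exact hGs
  · ext x
    rw [hH, hG0, h0]
  · ext x
    rw [hH, hG1, h1]

end Pool.Agent.Results.MP_28b04d_gt.NearlyLinearIsotopy
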